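import Pool.Agent.helper95.SP.SpecCH
import Pool.Agent.helper33.SP.SpecC1

/-!
# SP, KQAA: the numbers `a4`, `a6`
-/

namespace TP

open DP MeasureTheory

namespace K

theorem QAA_six (hUI3 : UI3_stmt) (b : V → Bool) (m n : ℕ) (hm : 1 ≤ m) (hmn : m < n)
    (h : six (col b) 0 m n) : four (col b) 0 m n := by
  by_cases hw : ∃ v ∈ ann (0 : V) m n, col b v = false
  · obtain ⟨v, hv, hvf⟩ := hw
    have h1 := h v hv
    have h2 : rc (col b) v false = col b := by
      funext w
      unfold rc
      split_ifs with hc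
      · have : col b w = col b v := by
          unfold col
          rw [hc]
        rw [this, hvf]
      · rfl
    rwa [h2] at h1
  · exfalso
    push Not at hw
    obtain ⟨v, hv⟩ : ∃ v, v ∈ ann (0 : V) m n := by
      refine ⟨((m : ℤ), 0), ?_⟩
      show m ≤ sd 0 ((m : ℤ), 0) ∧ sd 0 ((m : ℤ), 0) ≤ n
      unfold sd
      simp
      omega
    have h1 := (hUI3 _ 0 m n (by simp) hm hmn).2 (h v hv)
    obtain ⟨u, hu, u', hu', ⟨z, _, hz⟩, ⟨z', _, hz'⟩, hn⟩ := h1
    have key : ∀ w, w ∈ {w | w ∈ ann (0 : V) m n ∧ fl (rc (col b) v false) w = true} →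
        br w = br v := by
      rintro w ⟨hw1, hw2⟩
      by_contra hne
      have : rc (col b) v false w = col b w := if_neg hne
      unfold fl at hw2
      rw [this] at hw2
      have h3 := hw w hw1
      simp at hw2
      exact h3 hw2
    have e1 := key u hz.1
    have e2 := key u' hz'.1
    apply hn
    refine ⟨hz.1, ?_⟩
    by_cases he : u = u'
    · rw [he]
    · exact Relation.ReflTransGen.single ⟨br_adj (e1.trans e2.symm) he, hz'.1⟩

theorem QAA (hEXT : EXT_stmt) (hAM : DP.AM_stmt) (hUI3 : UI3_stmt) (hB0 : Bzero_stmt)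
    (hLQ : LQ_stmt) : QAA_stmt := by
  have hP : IsProbabilityMeasure P1 := by unfold P1; infer_instance
  have hnn : ∀ p q, 0 ≤ a4 p q := fun p q => measureReal_nonneg
  obtain ⟨c₂, hc₂, i₁, hE⟩ := hEXT
  have hQ : ∀ p q, Q (fun _ => 0) (Ev fun c => ar 4 c 0 (2 ^ p) (2 ^ q))
      (Ev fun c => ar 4 c 0 (2 ^ p) (2 ^ q)) = a4 p q := by
    intro p q
    have h1 := hLQ.1 (0 : V) p q
    have h2 := hB0 (fun _ => 0) (F4 0 p q) (F4 0 p q) _ h1 h1 (fun _ _ => rfl)
    rw [Set.inter_self] at h2
    exact h2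
  have hprof : Profile (fun _ : V => (0 : ℝ)) := fun _ => ⟨le_rfl, zero_le_one⟩
  have hE' : ∀ a b, i₁ ≤ a → a < b → c₂ * a4 a b ≤ a4 a (b + 1) ∧
      (i₁ < a → c₂ * a4 a b ≤ a4 (a - 1) b) ∧ c₂ ≤ a4 a (a + 1) := by
    intro a b ha hab
    have := hE 4 (fun _ => 0) 0 a b (Or.inr rfl) hprof (by simp) ha hab
    simp only [hQ] at this
    exact this
  have hmono : ∀ p, a4 p (p + 1) ≤ a4 p p := by
    intro p
    refine measureReal_mono ?_ (measure_ne_top _ _)
    intro b hb
    exact hAM (col b) 4 0 (2 ^ p) (2 ^ p) (2 ^ p) (2 ^ (p + 1)) (Or.inr rfl) le_rfl le_rfl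
      (Nat.pow_le_pow_right (by norm_num) (by omega)) hb
  refine ⟨fun p q => ⟨hnn p q, measureReal_le_one⟩, fun p q => measureReal_nonneg, ?_, ?_⟩
  · intro p q hpq
    refine measureReal_mono ?_ (measure_ne_top _ _)
    intro b hb
    exact QAA_six hUI3 b _ _ Nat.one_le_two_pow (Nat.pow_lt_pow_right (by norm_num) hpq) hb
  · set e := 1 / c₂ with he
    have he0 : 0 < e := by positivity
    have hce : c₂ * e = 1 := by rw [he]; field_simp
    refine ⟨1 + e + e ^ 2, i₁ + 1, by nlinarith [sq_nonneg e], ?_, ?_⟩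
    · intro p m hp
      set C := 1 + e + e ^ 2 with hC
      have hC1 : 1 ≤ C := by rw [hC]; nlinarith [sq_nonneg e]
      have hCe : e ≤ C := by rw [hC]; nlinarith [sq_nonneg e]
      have hcC : 1 ≤ c₂ * C := by
        calc (1 : ℝ) = c₂ * e := hce.symm
          _ ≤ c₂ * C := mul_le_mul_of_nonneg_left hCe hc₂.le
      -- positive ratio first
      have hpos : ∀ m, 1 ≤ a4 p (p + (m + 1)) * C ^ (m + 1) := by
        intro m
        induction m with
        | zero =>
          have h1 := (hE' p (p + 1) (by omega) (by omega)).2.2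
          rw [zero_add, pow_one]
          calc (1 : ℝ) ≤ c₂ * C := hcC
            _ ≤ a4 p (p + 1) * C := mul_le_mul_of_nonneg_right h1 (by linarith)
        | succ m ih =>
          have h1 := (hE' p (p + (m + 1)) (by omega) (by omega)).1
          have h2 : p + (m + 1 + 1) = p + (m + 1) + 1 := by omega
          rw [h2]
          have hCm : 0 < C ^ (m + 1) := by positivity
          calc (1 : ℝ) ≤ a4 p (p + (m + 1)) * C ^ (m + 1) := ih
            _ ≤ (a4 p (p + (m + 1)) * C ^ (m + 1)) * (c₂ * C) :=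
                le_mul_of_one_le_right (mul_nonneg (hnn _ _) hCm.le) hcC
            _ = (c₂ * a4 p (p + (m + 1))) * C ^ (m + 1 + 1) := by ring
            _ ≤ a4 p (p + (m + 1) + 1) * C ^ (m + 1 + 1) :=
                mul_le_mul_of_nonneg_right h1 (by positivity)
      cases m with
      | zero =>
        have h1 := hpos 0
        rw [zero_add] at h1
        rw [Nat.add_zero, zero_add]
        exact h1.trans (mul_le_mul_of_nonneg_right (hmono p) (by positivity))
      | succ m =>
        have h1 := hpos m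
        calc (1 : ℝ) ≤ a4 p (p + (m + 1)) * C ^ (m + 1) := h1
          _ ≤ a4 p (p + (m + 1)) * C ^ (m + 1 + 1) :=
              mul_le_mul_of_nonneg_left (pow_le_pow_right₀ hC1 (by omega)) (hnn _ _)
    · intro p q hp hpq
      have h1 := (hE' (p + 1) (q - 1) (by omega) (by omega)).1
      have h2 : q - 1 + 1 = q := by omega
      rw [h2] at h1
      have h3 := (hE' (p + 1) q (by omega) (by omega)).2.1 (by omega)
      rw [Nat.add_sub_cancel] at h3
      have h4 : a4 (p + 1) (q - 1) ≤ e ^ 2 * a4 p q := by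
        have h5 : a4 (p + 1) (q - 1) = e ^ 2 * (c₂ * (c₂ * a4 (p + 1) (q - 1))) := by
          have : e ^ 2 * (c₂ * (c₂ * a4 (p + 1) (q - 1))) =
              (c₂ * e) ^ 2 * a4 (p + 1) (q - 1) := by ring
          rw [this, hce]; ring
        rw [h5]
        apply mul_le_mul_of_nonneg_left _ (sq_nonneg e)
        exact (mul_le_mul_of_nonneg_left h1 hc₂.le).trans h3
      refine h4.trans (mul_le_mul_of_nonneg_right ?_ (hnn _ _))
      linarith

end K

end TP
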